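import Pool.Agent.H97.HV.Targets
import Pool.Agent.H75.PRK.EQB

/-!
# YA. Small cofinal subsets in the first case (MP_e37c09_lc)
-/

open Ordinal Cardinal Order Set
open scoped ZFSet

universe u

namespace Pool.Agent.H55.HV

open _root_.HD HD.PRK HD.HV Pool.Agent.H75.PRK

/-- YA. -/
theorem pf_YA : T_YA.{u} := by
  intro δ hδ hA α hlim hcof
  obtain ⟨D, hD, hDr, hDs, hD0⟩ := Pool.Agent.H45.CF.ext_card hδ
  obtain ⟨B, hB, hBl, e, he⟩ := All.vg α hlim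
  obtain ⟨Z, hZ, hxZ, ν, hν, hS⟩ := (pf_EQB δ hδ).1 hA α (os α B) (fun z hz => by
      obtain ⟨a, ha, -, rfl⟩ := mem_os.1 hz
      exact toZFSet_mem_toZFSet_iff.2 ha)
    ⟨α.cof.ord, hcof, e, fun a ha => he a (ord_mem_os.1 ha).2⟩
  have hc : α.cof < D := by
    rw [hD] at hcof
    exact Cardinal.ord_lt_ord.1 hcof
  have hν' : ν < D := by
    rw [hD] at hν
    exact Cardinal.ord_lt_ord.1 hν
  have hfew : Few D.ord (EQB_X α α.cof Z) := EQB_few hD0.le hν' hc hS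
  refine ⟨os α (EQB_X α α.cof Z), od_os (EQB_ds hZ) α, fun z hz => ?_, ?_, fun b hb => ?_⟩
  · obtain ⟨a, ha, -, rfl⟩ := mem_os.1 hz
    exact toZFSet_mem_toZFSet_iff.2 ha
  · obtain ⟨τ, hτ, g, hg⟩ := hfew
    exact ⟨τ, hD ▸ hτ, g, fun a ha => hg a (ord_mem_os.1 ha).2⟩
  · obtain ⟨c, hc1, hc2, hc3⟩ := hB.unb b hb
    refine ⟨c, hc1, hc2.le, ord_mem_os.2 ⟨hc1, hc1, os α B, hxZ, ⟨fun a => (e a).toZFSet,
      fun z hz => ?_⟩, ord_mem_os.2 ⟨hc1, hc3⟩⟩⟩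
    obtain ⟨a, ha, haB, rfl⟩ := mem_os.1 hz
    obtain ⟨i, hi, hi2⟩ := he a haB
    exact ⟨i, hi, congrArg Ordinal.toZFSet hi2.symm⟩

end Pool.Agent.H55.HV
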